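import Pool.Agent.Helper28.IV2.Spec

/-! MP_57632f_nt, second half, part N: the construction (adapted from Pool/Agent/Helper9/IV/B.lean). -/

set_option autoImplicit false

namespace Pool.Agent.Helper30.IV2.N

open Filter Topology
open Pool.Agent.Helper84.Places Pool.Agent.Helper28.IV2

open Classical in
/-- the changed sequence -/
noncomputable def chg {b : ℕ} (Z : Set ℕ) (e : Fin b) (y : ℕ → Fin b) (n : ℕ) : Fin b :=
  if n ∈ Z then e else y n

open Classical in
/-- the number of the places `s ≤ i < t` of `S` from which `Z` is seen in a word of length `k` -/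
noncomputable def cT (S Z : Set ℕ) (k s t : ℕ) : ℕ :=
  ((Finset.Ico s t).filter fun i => i ∈ S ∧ ∃ l < k, i + l ∈ Z).card

/-- two sequences which agree outside `Z` -/
theorem cJ_le {b : ℕ} (S Z : Set ℕ) (a a' : ℕ → Fin b) (h : ∀ n, n ∉ Z → a n = a' n) (s t : ℕ)
    {k : ℕ} (w : Fin k → Fin b) : cJ S a s t w ≤ cJ S a' s t w + cT S Z k s t := by
  classical
  unfold cJ cT
  refine (Finset.card_le_card ?_).trans (Finset.card_union_le _ _)
  intro i hi
  rw [Finset.mem_filter] at hi
  rw [Finset.mem_union, Finset.mem_filter, Finset.mem_filter]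
  by_cases h2 : ∃ l < k, i + l ∈ Z
  · exact Or.inr ⟨hi.1, hi.2.1, h2⟩
  · left
    refine ⟨hi.1, hi.2.1, ?_⟩
    push Not at h2
    rw [← hi.2.2]
    funext l
    exact (h _ (h2 l l.2)).symm

/-- the union of the sets -/
def ZZ (Z : ℕ → Finset ℕ) : Set ℕ := {n | ∃ i, n ∈ Z i}

theorem cT_le {S : Set ℕ} {u v N : ℕ → ℕ} {Z : ℕ → Finset ℕ} (hN : StrictMono N)
    (hZ : ∀ i, Z i ⊆ Finset.range (N i))
    (hs : ∀ i j, (∀ s ∈ S, u j ≤ s → s < v j → ∀ n ∈ Z i, ¬ (s ≤ n ∧ n < s + i)) ∨
      i * N i ≤ nJ S (u j) (v j)) {k i0 : ℕ} (hk : k ≤ i0) (j : ℕ) :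
    i0 * cT S (ZZ Z) k (u j) (v j) ≤ nJ S (u j) (v j) + i0 * N i0 := by
  classical
  unfold cT
  set T := (Finset.Ico (u j) (v j)).filter fun i => i ∈ S ∧ ∃ l < k, i + l ∈ ZZ Z with hT
  by_cases h : T ⊆ Finset.range (N i0)
  · have h1 : T.card ≤ N i0 := by
      have := Finset.card_le_card h
      rwa [Finset.card_range] at this
    have h2 := Nat.mul_le_mul_left i0 h1
    omega
  · obtain ⟨n0, hn0, hn0'⟩ := Finset.not_subset.1 h
    rw [Finset.mem_range, not_lt] at hn0'
    have hne : T.Nonempty := ⟨n0, hn0⟩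
    set n := T.max' hne with hn
    have hnT : n ∈ T := T.max'_mem hne
    have hn0n : n0 ≤ n := T.le_max' _ hn0
    rw [hT, Finset.mem_filter, Finset.mem_Ico] at hnT
    obtain ⟨⟨hu, hv⟩, hnS, l, hl, i, hi⟩ := hnT
    have h0 := Finset.mem_range.1 (hZ i hi)
    have h2 : i0 < i := by
      rw [← hN.lt_iff_lt]
      omega
    have h1 : i * N i ≤ nJ S (u j) (v j) := by
      rcases hs i j with h' | h'
      · exact absurd ⟨by omega, by omega⟩ (h' n hnS hu hv (n + l) hi)
      · exact h'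
    have h3 : T.card ≤ N i := by
      have h4 : T ⊆ Finset.range (N i) := by
        intro x hx
        rw [Finset.mem_range]
        have := T.le_max' _ hx
        omega
      have := Finset.card_le_card h4
      rwa [Finset.card_range] at this
    have h4 : i0 * T.card ≤ i * N i := Nat.mul_le_mul (by omega) h3
    omega

theorem cS_one {b : ℕ} (a : ℕ → Fin b) (N : ℕ) (e : Fin b) [DecidablePred fun n => a n = e] :
    cS Set.univ a N (fun _ : Fin 1 => e) = ((Finset.range N).filter fun n => a n = e).card := by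
  classical
  unfold cS
  refine congrArg Finset.card (Finset.ext fun n => ?_)
  simp only [Finset.mem_filter]
  refine and_congr_right fun _ => ?_
  constructor
  · rintro ⟨-, h⟩
    exact congrFun h 0
  · intro h
    refine ⟨Set.mem_univ _, funext fun l => ?_⟩
    have hl : (l : ℕ) = 0 := by omega
    unfold wd
    rw [hl]
    exact h

/-- the changed sequence contains the digit more often -/
theorem count1 {b : ℕ} (Z : Set ℕ) (y : ℕ → Fin b) (e : Fin b) (N : ℕ) (U : Finset ℕ)
    (hU : ∀ n ∈ U, n < N ∧ n ∈ Z) [DecidablePred fun n => y n ≠ e] :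
    cS Set.univ y N (fun _ : Fin 1 => e) + (U.filter fun n => y n ≠ e).card ≤
      cS Set.univ (chg Z e y) N (fun _ : Fin 1 => e) := by
  classical
  rw [cS_one, cS_one, ← Finset.card_union_of_disjoint]
  · apply Finset.card_le_card
    intro n hn
    rw [Finset.mem_union, Finset.mem_filter, Finset.mem_filter] at hn
    rw [Finset.mem_filter]
    rcases hn with ⟨h1, h2⟩ | ⟨h1, h2⟩
    · refine ⟨h1, ?_⟩
      unfold chg
      split_ifs
      · rfl
      · exact h2
    · obtain ⟨h3, h4⟩ := hU n h1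
      refine ⟨Finset.mem_range.2 h3, ?_⟩
      unfold chg
      rw [if_pos h4]
  · rw [Finset.disjoint_left]
    intro n h1 h2
    rw [Finset.mem_filter] at h1 h2
    exact h2.2 h1.2

theorem count {b : ℕ} {N : ℕ → ℕ} {Z : ℕ → Finset ℕ} (hZ : ∀ i, Z i ⊆ Finset.range (N i))
    (y : ℕ → Fin b) (e0 e1 : Fin b) (he : e0 ≠ e1) (i : ℕ) :
    cS Set.univ y (N i) (fun _ : Fin 1 => e0) + cS Set.univ y (N i) (fun _ : Fin 1 => e1) +
      (Z i).card ≤
    cS Set.univ (chg (ZZ Z) e0 y) (N i) (fun _ : Fin 1 => e0) +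
      cS Set.univ (chg (ZZ Z) e1 y) (N i) (fun _ : Fin 1 => e1) := by
  classical
  have hU' : ∀ n ∈ Z i, n < N i ∧ n ∈ ZZ Z := by
    intro n hn
    exact ⟨Finset.mem_range.1 (hZ i hn), i, hn⟩
  have h0 := count1 (ZZ Z) y e0 (N i) (Z i) hU'
  have h1 := count1 (ZZ Z) y e1 (N i) (Z i) hU'
  have h2 : (Z i).card ≤ ((Z i).filter fun n => y n ≠ e0).card +
      ((Z i).filter fun n => y n ≠ e1).card := by
    refine le_trans (Finset.card_le_card ?_) (Finset.card_union_le _ _)
    intro n hn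
    refine Finset.mem_union.2 ?_
    by_cases h : y n = e0
    · right
      exact Finset.mem_filter.2 ⟨hn, fun h' => he (h.symm.trans h')⟩
    · left
      exact Finset.mem_filter.2 ⟨hn, h⟩
  omega

theorem norm_chg {b : ℕ} {S : Set ℕ} {u v N : ℕ → ℕ} {Z : ℕ → Finset ℕ} {y : ℕ → Fin b}
    (hN : StrictMono N) (hZ : ∀ i, Z i ⊆ Finset.range (N i))
    (hs : ∀ i j, (∀ s ∈ S, u j ≤ s → s < v j → ∀ n ∈ Z i, ¬ (s ≤ n ∧ n < s + i)) ∨
      i * N i ≤ nJ S (u j) (v j))
    (hL : Tendsto (fun j => nJ S (u j) (v j)) atTop atTop)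
    (hy : Norm S u v y) (e : Fin b) : Norm S u v (chg (ZZ Z) e y) := by
  classical
  intro k hk w
  have h1 := hy k hk w
  set x := chg (ZZ Z) e y with hx
  have hag : ∀ n, n ∉ ZZ Z → x n = y n := by
    intro n hn
    rw [hx]
    unfold chg
    rw [if_neg hn]
  have h2 : Tendsto (fun j => (cJ S x (u j) (v j) w : ℝ) / (nJ S (u j) (v j) : ℝ) -
      (cJ S y (u j) (v j) w : ℝ) / (nJ S (u j) (v j) : ℝ)) atTop (𝓝 0) := by
    rw [Metric.tendsto_nhds]
    intro η hη
    obtain ⟨i1, hi1⟩ := exists_nat_gt (2 / η)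
    obtain ⟨i0, hki, hii, hip⟩ : ∃ i0, k ≤ i0 ∧ i1 ≤ i0 ∧ 0 < i0 :=
      ⟨k + i1, by omega, by omega, by omega⟩
    obtain ⟨M, hM⟩ := exists_nat_gt (2 * (N i0 : ℝ) / η)
    filter_upwards [hL.eventually_ge_atTop (M + 1)] with j hj
    have hD := cT_le hN hZ hs hki j
    set D := cT S (ZZ Z) k (u j) (v j) with hDdef
    set L : ℕ := nJ S (u j) (v j) with hLdef
    have hL0 : (0 : ℝ) < L := by
      have : 0 < L := by omega
      exact_mod_cast this
    have hML : (M : ℝ) ≤ L := by
      have : M ≤ L := by omega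
      exact_mod_cast this
    have hD' : (i0 : ℝ) * D ≤ L + (i0 : ℝ) * N i0 := by exact_mod_cast hD
    have h3 : (cJ S x (u j) (v j) w : ℝ) ≤ cJ S y (u j) (v j) w + D := by
      exact_mod_cast cJ_le S (ZZ Z) x y hag (u j) (v j) w
    have h4 : (cJ S y (u j) (v j) w : ℝ) ≤ cJ S x (u j) (v j) w + D := by
      exact_mod_cast cJ_le S (ZZ Z) y x (fun n hn => (hag n hn).symm) (u j) (v j) w
    have hi2 : (0 : ℝ) < i0 := by exact_mod_cast hip
    have hi3 : (i1 : ℝ) ≤ i0 := by exact_mod_cast hii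
    rw [div_lt_iff₀ hη] at hi1 hM
    have h5 : (D : ℝ) < η * L := by
      have h7 : (D : ℝ) ≤ N i0 + L / (i0 : ℝ) := by
        rw [← sub_le_iff_le_add', le_div_iff₀ hi2]
        nlinarith
      have h8 : (L : ℝ) / (i0 : ℝ) < η / 2 * L := by
        rw [div_lt_iff₀ hi2]
        have h9 : 1 < η / 2 * (i0 : ℝ) := by nlinarith
        nlinarith
      have h9 : (N i0 : ℝ) < η / 2 * L := by nlinarith
      linarith
    rw [dist_zero_right, Real.norm_eq_abs, ← sub_div, abs_div, abs_of_pos hL0, div_lt_iff₀ hL0]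
    refine lt_of_le_of_lt ?_ h5
    rw [abs_le]
    constructor <;> linarith
  have h3 := h2.add h1
  rw [zero_add] at h3
  exact h3.congr fun n => by ring

theorem main : S_N := by
  classical
  intro b _ S u v y hb hL hy ε N Z hε hN hZ hcard hs
  by_contra hcon
  push Not at hcon
  have hpos : ∀ i, (0 : ℝ) < N i := by
    intro i
    rcases Nat.eq_zero_or_pos (N i) with h | h
    · have h1 := hcard i
      have h2 := hZ i
      rw [h, Finset.range_zero, Finset.subset_empty] at h2
      rw [h, h2] at h1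
      simp at h1
    · exact_mod_cast h
  let e0 : Fin b := ⟨0, by omega⟩
  let e1 : Fin b := ⟨1, by omega⟩
  have he : e0 ≠ e1 := by
    intro h
    have := congrArg Fin.val h
    simp [e0, e1] at this
  have hNt : Tendsto N atTop atTop := hN.tendsto_atTop
  have t1 := (hcon y hy 1 (fun _ => e0) one_pos).comp hNt
  have t2 := (hcon y hy 1 (fun _ => e1) one_pos).comp hNt
  have t3 := (hcon _ (norm_chg hN hZ hs hL hy e0) 1 (fun _ => e0) one_pos).comp hNt
  have t4 := (hcon _ (norm_chg hN hZ hs hL hy e1) 1 (fun _ => e1) one_pos).comp hNt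
  have t5 := (t3.add t4).sub (t1.add t2)
  rw [sub_self] at t5
  have h6 : ε ≤ 0 := by
    refine ge_of_tendsto t5 (Eventually.of_forall fun i => ?_)
    simp only [Function.comp]
    rw [← add_div, ← add_div, ← sub_div, le_div_iff₀ (hpos i)]
    have h7 := count hZ y e0 e1 he i
    have h8 := hcard i
    have h9 : (cS Set.univ y (N i) (fun _ : Fin 1 => e0) : ℝ) +
        cS Set.univ y (N i) (fun _ : Fin 1 => e1) + (Z i).card ≤
        cS Set.univ (chg (ZZ Z) e0 y) (N i) (fun _ : Fin 1 => e0) +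
        cS Set.univ (chg (ZZ Z) e1 y) (N i) (fun _ : Fin 1 => e1) := by
      exact_mod_cast h7
    linarith
  linarith

end Pool.Agent.Helper30.IV2.N
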